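import Mathlib

/-!
# A greedy covering by translates
-/

namespace Pool.Agent.Helper39.Bat

open Finset

variable {G : Type*} [AddCommGroup G] [Fintype G] [DecidableEq G]

lemma card_translates (A : Finset G) (g : G) :
    (univ.filter fun t => g - t ∈ A).card = A.card := by
  refine Finset.card_nbij' (fun t => g - t) (fun t => g - t) ?_ ?_ ?_ ?_
  · intro t ht
    simpa using ht
  · intro t ht
    simpa using ht
  · intro t _
    simp
  · intro t _
    simp

lemma sum_cover (A U : Finset G) :
    ∑ t : G, (U.filter fun g => g - t ∈ A).card = U.card * A.card := by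
  simp only [Finset.card_filter]
  rw [Finset.sum_comm]
  simp only [← Finset.card_filter, card_translates, Finset.sum_const, smul_eq_mul]

/-- one greedy step -/
lemma exists_step (A U : Finset G) :
    ∃ t : G, ((U.filter fun g => g - t ∉ A).card : ℝ)
      ≤ (1 - (A.card : ℝ) / Fintype.card G) * U.card := by
  by_contra hcon
  push Not at hcon
  have hG : (0 : ℝ) < Fintype.card G := by exact_mod_cast Fintype.card_pos
  have h1 : ∀ t : G, ((U.filter fun g => g - t ∈ A).card : ℝ)
      < (A.card : ℝ) / Fintype.card G * U.card := by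
    intro t
    have h2 := hcon t
    have h3 := Finset.card_filter_add_card_filter_not (s := U) (fun g => g - t ∈ A)
    have h4 : ((U.filter fun g => g - t ∈ A).card : ℝ)
        + ((U.filter fun g => g - t ∉ A).card : ℝ) = U.card := by exact_mod_cast h3
    linarith
  have h5 : (∑ t : G, ((U.filter fun g => g - t ∈ A).card : ℝ))
      < ∑ _t : G, (A.card : ℝ) / Fintype.card G * U.card :=
    Finset.sum_lt_sum_of_nonempty ⟨0, Finset.mem_univ _⟩ fun t _ => h1 t
  have h6 : (∑ t : G, ((U.filter fun g => g - t ∈ A).card : ℝ)) = (U.card : ℝ) * A.card := by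
    exact_mod_cast sum_cover A U
  rw [h6, Finset.sum_const, nsmul_eq_mul, Finset.card_univ] at h5
  have h7 : (Fintype.card G : ℝ) * ((A.card : ℝ) / Fintype.card G * U.card)
      = (U.card : ℝ) * A.card := by
    field_simp
  linarith

lemma exists_steps (A : Finset G) (k : ℕ) :
    ∃ T : Finset G, T.card ≤ k ∧ ((univ.filter fun g => ∀ t ∈ T, g - t ∉ A).card : ℝ)
      ≤ (1 - (A.card : ℝ) / Fintype.card G) ^ k * Fintype.card G := by
  induction k with
  | zero => exact ⟨∅, by simp, by simp⟩
  | succ k ih =>
    obtain ⟨T, hT, hU⟩ := ih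
    obtain ⟨t, ht⟩ := exists_step A (univ.filter fun g => ∀ t ∈ T, g - t ∉ A)
    refine ⟨insert t T, (Finset.card_insert_le _ _).trans (by omega), ?_⟩
    have h1 : (univ.filter fun g => ∀ s ∈ insert t T, g - s ∉ A)
        = ((univ.filter fun g => ∀ t ∈ T, g - t ∉ A).filter fun g => g - t ∉ A) := by
      ext g
      simp only [Finset.mem_filter, Finset.mem_univ, true_and, Finset.forall_mem_insert]
      exact and_comm
    rw [h1]
    have hG : (0 : ℝ) < Fintype.card G := by exact_mod_cast Fintype.card_pos
    have h2 : (0 : ℝ) ≤ 1 - (A.card : ℝ) / Fintype.card G := by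
      have : (A.card : ℝ) ≤ Fintype.card G := by exact_mod_cast Finset.card_le_univ A
      have := (div_le_one hG).mpr this
      linarith
    calc _ ≤ (1 - (A.card : ℝ) / Fintype.card G) *
          ((univ.filter fun g => ∀ t ∈ T, g - t ∉ A).card : ℝ) := ht
      _ ≤ (1 - (A.card : ℝ) / Fintype.card G) *
          ((1 - (A.card : ℝ) / Fintype.card G) ^ k * Fintype.card G) :=
            mul_le_mul_of_nonneg_left hU h2
      _ = _ := by ring

/-- **Greedy covering.** A finite abelian group is covered by few translates of a nonempty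
set. -/
theorem exists_cover (A : Finset G) (hA : A.Nonempty) :
    ∃ T : Finset G, (∀ g, ∃ t ∈ T, g - t ∈ A) ∧
      (T.card : ℝ) ≤ ((Fintype.card G : ℝ) / A.card) * (1 + Real.log (Fintype.card G)) + 1 := by
  have hG : (0 : ℝ) < Fintype.card G := by exact_mod_cast Fintype.card_pos
  have hG1 : (1 : ℝ) ≤ Fintype.card G := by exact_mod_cast Fintype.card_pos
  have hA0 : (0 : ℝ) < A.card := by exact_mod_cast hA.card_pos
  have hAG : (A.card : ℝ) ≤ Fintype.card G := by exact_mod_cast Finset.card_le_univ A
  set N : ℝ := (Fintype.card G : ℝ) with hN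
  set a : ℝ := (A.card : ℝ) with ha
  have hlog : 0 ≤ Real.log N := Real.log_nonneg hG1
  set k : ℕ := ⌈N / a * Real.log N⌉₊ with hk
  have hk1 : N / a * Real.log N ≤ k := Nat.le_ceil _
  have hk2 : (k : ℝ) < N / a * Real.log N + 1 := Nat.ceil_lt_add_one (by positivity)
  obtain ⟨T, hT, hU⟩ := exists_steps A k
  have h0 : (0 : ℝ) ≤ 1 - a / N := by
    have := (div_le_one hG).mpr hAG
    linarith
  have h1 : (1 - a / N) ^ k * N ≤ 1 := by
    have h2 : 1 - a / N ≤ Real.exp (-(a / N)) := by
      have := Real.add_one_le_exp (-(a / N))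
      linarith
    have h3 : (1 - a / N) ^ k ≤ Real.exp (-(a / N)) ^ k := pow_le_pow_left₀ h0 h2 k
    have h4 : Real.exp (-(a / N)) ^ k = Real.exp (-(a / N * k)) := by
      rw [← Real.exp_nat_mul]; congr 1; ring
    have h5 : Real.log N ≤ a / N * k := by
      have h6 : a / N * (N / a * Real.log N) ≤ a / N * k :=
        mul_le_mul_of_nonneg_left hk1 (by positivity)
      have h7 : a / N * (N / a * Real.log N) = Real.log N := by field_simp
      linarith
    have h8 : Real.exp (-(a / N * k)) ≤ Real.exp (-Real.log N) := Real.exp_le_exp.mpr (by linarith)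
    have h9 : Real.exp (-Real.log N) = N⁻¹ := by rw [Real.exp_neg, Real.exp_log hG]
    calc (1 - a / N) ^ k * N ≤ N⁻¹ * N := by
          apply mul_le_mul_of_nonneg_right _ hG.le
          rw [← h9]
          exact (h3.trans h4.le).trans h8
      _ = 1 := inv_mul_cancel₀ hG.ne'
  have h10 : (univ.filter fun g => ∀ t ∈ T, g - t ∉ A).card ≤ 1 := by
    have : ((univ.filter fun g => ∀ t ∈ T, g - t ∉ A).card : ℝ) ≤ 1 := hU.trans h1
    exact_mod_cast this
  obtain ⟨x, hx⟩ := hA
  have hNa : 1 ≤ N / a := (one_le_div hA0).mpr hAG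
  have hcard : (k : ℝ) + 1 ≤ N / a * (1 + Real.log N) + 1 := by
    have : N / a * (1 + Real.log N) = N / a + N / a * Real.log N := by ring
    linarith
  rcases Finset.eq_empty_or_nonempty (univ.filter fun g => ∀ t ∈ T, g - t ∉ A) with he | ⟨g₀, hg₀⟩
  · refine ⟨T, fun g => ?_, ?_⟩
    · by_contra hcon
      push Not at hcon
      have : g ∈ (univ.filter fun g => ∀ t ∈ T, g - t ∉ A) := by simpa using hcon
      rw [he] at this
      exact absurd this (Finset.notMem_empty _)
    · have : (T.card : ℝ) ≤ k := by exact_mod_cast hT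
      linarith
  · refine ⟨insert (g₀ - x) T, fun g => ?_, ?_⟩
    · by_cases hg : ∃ t ∈ T, g - t ∈ A
      · obtain ⟨t, ht, h⟩ := hg
        exact ⟨t, Finset.mem_insert_of_mem ht, h⟩
      · push Not at hg
        have h11 : g = g₀ := Finset.card_le_one.mp h10 g (by simpa using hg) g₀ hg₀
        exact ⟨g₀ - x, Finset.mem_insert_self _ _, by rw [h11]; simpa using hx⟩
    · have h12 : (insert (g₀ - x) T).card ≤ k + 1 := (Finset.card_insert_le _ _).trans (by omega)
      have : ((insert (g₀ - x) T).card : ℝ) ≤ k + 1 := by exact_mod_cast h12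
      linarith

end Pool.Agent.Helper39.Bat
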