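import Mathlib

/-!
# The limit of `n`-th roots between `b ^ n` and `b ^ n (1 + c n) + 1`
-/

namespace Pool.Agent.Helper39.Bat

open Filter Topology

/-- If `b ^ n ≤ f n ≤ b ^ n (1 + c n) + 1` then the `n`-th roots of `f n` tend to `b`. -/
theorem tendsto_root {f : ℕ → ℝ} {b c : ℝ} (hb : 1 ≤ b) (hc : 0 ≤ c)
    (hl : ∀ n, b ^ n ≤ f n) (hu : ∀ n, f n ≤ b ^ n * (1 + c * n) + 1) :
    Tendsto (fun n : ℕ => f n ^ ((1 : ℝ) / n)) atTop (𝓝 b) := by
  have hb0 : 0 < b := by linarith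
  have hone : Tendsto (fun n : ℕ => ((n : ℝ)) ^ ((1 : ℝ) / n)) atTop (𝓝 1) :=
    tendsto_rpow_div.comp tendsto_natCast_atTop_atTop
  have hinv : Tendsto (fun n : ℕ => (1 : ℝ) / n) atTop (𝓝 0) := tendsto_one_div_atTop_nhds_zero_nat
  have htwo : Tendsto (fun n : ℕ => (2 + c) ^ ((1 : ℝ) / n)) atTop (𝓝 1) := by
    have h := (Real.continuousAt_const_rpow (a := 2 + c) (b := 0) (by linarith)).tendsto.comp hinv
    rw [Real.rpow_zero] at h
    exact h
  have hlim : Tendsto (fun n : ℕ => b * (((n : ℝ)) ^ ((1 : ℝ) / n) * (2 + c) ^ ((1 : ℝ) / n)))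
      atTop (𝓝 b) := by
    simpa using (hone.mul htwo).const_mul b
  have hroot : ∀ n : ℕ, 1 ≤ n → (b ^ n) ^ ((1 : ℝ) / n) = b := by
    intro n hn
    rw [one_div]
    exact Real.pow_rpow_inv_natCast hb0.le (by omega)
  refine tendsto_of_tendsto_of_tendsto_of_le_of_le' tendsto_const_nhds hlim ?_ ?_
  · filter_upwards [eventually_ge_atTop 1] with n hn
    calc b = (b ^ n) ^ ((1 : ℝ) / n) := (hroot n hn).symm
      _ ≤ f n ^ ((1 : ℝ) / n) := Real.rpow_le_rpow (by positivity) (hl n) (by positivity)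
  · filter_upwards [eventually_ge_atTop 1] with n hn
    have hn1 : (1 : ℝ) ≤ n := by exact_mod_cast hn
    have h1 : f n ≤ b ^ n * (n * (2 + c)) := by
      have h2 : (1 : ℝ) ≤ b ^ n := one_le_pow₀ hb
      have h3 : b ^ n * (1 + c * n) + 1 ≤ b ^ n * (2 + c * n) := by nlinarith
      have h4 : b ^ n * (2 + c * n) ≤ b ^ n * (n * (2 + c)) :=
        mul_le_mul_of_nonneg_left (by nlinarith) (by positivity)
      exact ((hu n).trans h3).trans h4
    calc f n ^ ((1 : ℝ) / n) ≤ (b ^ n * (n * (2 + c))) ^ ((1 : ℝ) / n) :=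
          Real.rpow_le_rpow ((by positivity : (0 : ℝ) ≤ b ^ n).trans (hl n)) h1 (by positivity)
      _ = b * (((n : ℝ)) ^ ((1 : ℝ) / n) * (2 + c) ^ ((1 : ℝ) / n)) := by
          rw [Real.mul_rpow (by positivity) (by positivity), hroot n hn,
            Real.mul_rpow (by positivity) (by positivity)]

end Pool.Agent.Helper39.Bat
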